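import Pool.Agent.E8helper57.AV.Stm

/-!
Project AV (`MP_f73b56_co`), part START: the local budget at a start event.
-/

set_option autoImplicit false

namespace Pool.Agent.E8helper89.AV

open Finset Pool.Agent.E8helper57.AV

theorem rank_le {n : ℕ} (S L : Finset (Fin n)) (r : Fin n → ℕ) (k : ℕ)
    (hSL : S ⊆ L) (hr : Set.InjOn r S) (h : ∀ x ∈ S, #{y ∈ L | r y < r x} ≤ k) :
    #S ≤ k + 1 := by
  rcases S.eq_empty_or_nonempty with rfl | hne
  · simp
  obtain ⟨x, hx, hmax⟩ := S.exists_max_image r hne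
  have hsub : S.erase x ⊆ ({y ∈ L | r y < r x} : Finset (Fin n)) := by
    intro y hy
    rw [Finset.mem_erase] at hy
    rw [Finset.mem_filter]
    refine ⟨hSL hy.2, lt_of_le_of_ne (hmax y hy.2) ?_⟩
    intro e
    exact hy.1 (hr hy.2 hx e)
  have h1 := Finset.card_le_card hsub
  have h2 := h x hx
  rw [Finset.card_erase_of_mem hx] at h1
  omega

theorem card_split {n : ℕ} (p q : Fin n → Prop) [DecidablePred p] [DecidablePred q] :
    #{d : Fin n | p d} = #{d : Fin n | p d ∧ q d} + #{d : Fin n | p d ∧ ¬ q d} := by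
  have := Finset.card_filter_add_card_filter_not (s := ({d : Fin n | p d} : Finset (Fin n))) q
  rw [Finset.filter_filter, Finset.filter_filter] at this
  exact this.symm

theorem card_lt {n : ℕ} (s : Fin n) : #{d : Fin n | d < s} = s.val := by
  have : ({d : Fin n | d < s} : Finset (Fin n)) = Finset.Iio s := by
    ext d; simp
  rw [this, Fin.card_Iio]

/-- for an absent `s < c`: `f(s) + s = out + #{d < s absent}`. -/
theorem cnt {n : ℕ} (R : Fin n → Bool) (s c : Fin n) (hsc : s < c) (hs : R s = false) :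
    #{d : Fin n | s < d ∧ d < c ∧ R d} + s.val =
      #{d : Fin n | d < c ∧ R d} + #{d : Fin n | d < s ∧ ¬ R d} := by
  have h1 : #{d : Fin n | d < c ∧ R d} =
      #{d : Fin n | s < d ∧ d < c ∧ R d} + #{d : Fin n | d < s ∧ R d} := by
    rw [card_split (fun d : Fin n => d < c ∧ R d = true) (fun d => s < d)]
    congr 2
    · ext d; simp only [Finset.mem_filter, Finset.mem_univ, true_and]; tauto
    · ext d; simp only [Finset.mem_filter, Finset.mem_univ, true_and]
      constructor
      · rintro ⟨⟨h1, h2⟩, h3⟩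
        refine ⟨lt_of_le_of_ne (not_lt.mp h3) ?_, h2⟩
        rintro rfl
        rw [hs] at h2
        exact absurd h2 (by simp)
      · rintro ⟨h1, h2⟩
        exact ⟨⟨lt_trans h1 hsc, h2⟩, not_lt.mpr h1.le⟩
  have h2 := card_split (fun d : Fin n => d < s) (fun d => R d = true)
  rw [card_lt] at h2
  omega

/-- the absent arcs `s < c` with `out + #{d < s absent} ≤ k`. -/
theorem absent_le {n : ℕ} (k m : ℕ) (S : Finset (Fin n)) (R : Fin n → Bool)
    (hS : ∀ s ∈ S, R s = false ∧ m + #{d : Fin n | d < s ∧ ¬ R d} ≤ k) :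
    #S ≤ k + 1 - m := by
  rcases S.eq_empty_or_nonempty with rfl | hne
  · simp
  obtain ⟨x, hx⟩ := hne
  have hm : m ≤ k := by have := (hS x hx).2; omega
  have := rank_le S ({d : Fin n | ¬ R d} : Finset (Fin n)) (fun d => d.val) (k - m) ?_ ?_ ?_
  · omega
  · intro y hy
    rw [Finset.mem_filter]
    exact ⟨Finset.mem_univ _, by simp [(hS y hy).1]⟩
  · intro a _ b _ e
    exact Fin.ext e
  · intro y hy
    have h1 := (hS y hy).2
    have h2 : #{z ∈ ({d : Fin n | ¬ R d} : Finset (Fin n)) | z.val < y.val} =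
        #{d : Fin n | d < y ∧ ¬ R d} := by
      congr 1
      ext z
      simp only [Finset.mem_filter, Finset.mem_univ, true_and, Fin.lt_def]
      tauto
    rw [h2]
    omega

/-- `outA + (k + 1 - c) ≤ k + 1 - out`. -/
theorem outA_le {n : ℕ} (k : ℕ) (P : Fin n → Bool) (c : Fin n) :
    outA k P c + (k + 1 - c.val) ≤ k + 1 - #{d : Fin n | d < c ∧ P d} := by
  have h1 : outA k P c ≤ k + 1 - #{d : Fin n | d < c ∧ P d} := by
    unfold outA
    apply absent_le k _ _ P
    intro s hs
    rw [Finset.mem_filter] at hs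
    obtain ⟨-, h1, h2, h3, h4⟩ := hs
    refine ⟨h3, ?_⟩
    rw [← cnt P s c h1 h3]
    exact h4
  have h2 : outA k P c ≤ #{d : Fin n | d < c ∧ ¬ P d} := by
    unfold outA
    apply Finset.card_le_card
    intro s hs
    rw [Finset.mem_filter] at hs ⊢
    obtain ⟨-, h1, h2, h3, h4⟩ := hs
    exact ⟨Finset.mem_univ _, h1, by simp [h3]⟩
  have h3 := card_split (fun d : Fin n => d < c) (fun d => P d = true)
  rw [card_lt] at h3
  omega

/-- if `c` is not on the side `Q`: `inA ≤ k + 1 - inn`. -/
theorem inA_le {n : ℕ} (k : ℕ) (P Q : Fin n → Bool) (c : Fin n) (hQ : Q c = false) :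
    inA k P Q c ≤ k + 1 - (#{d : Fin n | c < d ∧ (P d ∨ Q d)} + #{d : Fin n | d < c ∧ Q d}) := by
  unfold inA
  rw [if_neg (by simp [hQ])]
  apply absent_le k _ _ Q
  intro s hs
  rw [Finset.mem_filter] at hs
  obtain ⟨-, h1, h2, h3, h4⟩ := hs
  refine ⟨h3, ?_⟩
  have h5 := cnt Q s c h1 h3
  have h6 : #{d : Fin n | s < d ∧ d ≠ c ∧ (Q d ∨ (c < d ∧ P d))} =
      #{d : Fin n | c < d ∧ (P d ∨ Q d)} + #{d : Fin n | s < d ∧ d < c ∧ Q d} := by
    rw [card_split (fun d : Fin n => s < d ∧ d ≠ c ∧ (Q d = true ∨ (c < d ∧ P d = true)))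
      (fun d => c < d)]
    congr 2
    · ext d; simp only [Finset.mem_filter, Finset.mem_univ, true_and]
      constructor
      · rintro ⟨⟨h1, h2, h3⟩, h4⟩
        refine ⟨h4, ?_⟩
        tauto
      · rintro ⟨h5, h6⟩
        refine ⟨⟨lt_trans h1 h5, ne_of_gt h5, ?_⟩, h5⟩
        tauto
    · ext d; simp only [Finset.mem_filter, Finset.mem_univ, true_and]
      constructor
      · rintro ⟨⟨h1, h2, h3⟩, h4⟩
        refine ⟨h1, lt_of_le_of_ne (not_lt.mp h4) h2, ?_⟩
        tauto
      · rintro ⟨h5, h6, h7⟩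
        exact ⟨⟨h5, ne_of_lt h6, Or.inl h7⟩, not_lt.mpr h6.le⟩
  omega

/-- the arcs of the side `P` outside `c` with at most `k` arcs in between. -/
theorem T_le {n : ℕ} (k : ℕ) (P : Fin n → Bool) (c : Fin n) :
    #{a : Fin n | a < c ∧ P a ∧ #{d : Fin n | a < d ∧ d < c ∧ P d} ≤ k} ≤
      min (k + 1) (#{d : Fin n | d < c ∧ P d}) := by
  apply le_min
  · apply rank_le _ ({d : Fin n | d < c ∧ P d} : Finset (Fin n)) (fun d => n - d.val) k
    · intro a ha
      rw [Finset.mem_filter] at ha ⊢
      exact ⟨ha.1, ha.2.1, ha.2.2.1⟩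
    · intro a _ b _ e
      apply Fin.ext
      have h1 := a.isLt
      have h2 := b.isLt
      simp only at e
      omega
    · intro a ha
      rw [Finset.mem_filter] at ha
      refine le_trans (Finset.card_le_card ?_) ha.2.2.2
      intro d hd
      simp only [Finset.mem_filter, Finset.mem_univ, true_and] at hd ⊢
      refine ⟨?_, hd.1.1, hd.1.2⟩
      rw [Fin.lt_def]
      omega
  · apply Finset.card_le_card
    intro a ha
    rw [Finset.mem_filter] at ha ⊢
    exact ⟨ha.1, ha.2.1, ha.2.2.1⟩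

/-- the inward list of `c`. -/
def key {n : ℕ} (P : Fin n → Bool) (c d : Fin n) : ℕ :=
  if P d = true ∧ c < d then d.val else 2 * n - d.val

theorem key_inj {n : ℕ} (P : Fin n → Bool) (c : Fin n) : Function.Injective (key P c) := by
  intro a b e
  have h1 := a.isLt
  have h2 := b.isLt
  apply Fin.ext
  unfold key at e
  split_ifs at e <;> omega

/-- set `O` of the new relations `(a, c)` on the side `P`. -/
def setO {n : ℕ} (k : ℕ) (P Q : Fin n → Bool) (c : Fin n) : Finset (Fin n) :=
  {a : Fin n | a < c ∧ P a ∧ #{d : Fin n | a < d ∧ d < c ∧ P d} ≤ k ∧ see k P Q a c = false}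

/-- set `I1` of the new relations `(c, b)` on the side `P`. -/
def setI1 {n : ℕ} (k : ℕ) (P Q : Fin n → Bool) (c : Fin n) : Finset (Fin n) :=
  {b : Fin n | c < b ∧ ((P b ∧ #{d : Fin n | c < d ∧ d < b ∧ P d} ≤ k) ∨
    (Q b ∧ #{d : Fin n | d ≠ c ∧ d ≠ b ∧ ((c < d ∧ P d) ∨ (b < d ∧ Q d))} ≤ k))}

/-- set `I2` of the new relations `(a, c)` on the side `Q`. -/
def setI2 {n : ℕ} (k : ℕ) (P Q : Fin n → Bool) (c : Fin n) : Finset (Fin n) :=
  {a : Fin n | a < c ∧ Q a ∧ ¬ Q c ∧
    #{d : Fin n | d ≠ a ∧ d ≠ c ∧ ((a < d ∧ Q d) ∨ (c < d ∧ P d))} ≤ k}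

theorem see_true_iff {n : ℕ} (k : ℕ) (P Q : Fin n → Bool) (a b : Fin n) :
    see k P Q a b = true ↔ P a = true ∧ ((P b = true ∧ #{c : Fin n | a < c ∧ c < b ∧ P c} ≤ k) ∨
      (Q b = true ∧ #{c : Fin n | c ≠ a ∧ c ≠ b ∧ ((a < c ∧ P c) ∨ (b < c ∧ Q c))} ≤ k)) := by
  unfold see
  simp only [Bool.and_eq_true, Bool.or_eq_true, decide_eq_true_eq]

theorem see_false_iff {n : ℕ} (k : ℕ) (P Q : Fin n → Bool) (a b : Fin n) :
    see k P Q a b = false ↔ ¬ (P a = true ∧
      ((P b = true ∧ #{c : Fin n | a < c ∧ c < b ∧ P c} ≤ k) ∨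
      (Q b = true ∧ #{c : Fin n | c ≠ a ∧ c ≠ b ∧ ((a < c ∧ P c) ∨ (b < c ∧ Q c))} ≤ k))) := by
  rw [← see_true_iff, Bool.not_eq_true]

theorem upd_of_ne {n : ℕ} (P : Fin n → Bool) (c d : Fin n) (v : Bool) (h : d ≠ c) :
    Function.update P c v d = P d := Function.update_of_ne h v P

theorem upd_self {n : ℕ} (P : Fin n → Bool) (c : Fin n) (v : Bool) :
    Function.update P c v c = v := Function.update_self c v P

theorem upd_mono {n : ℕ} (P : Fin n → Bool) (c d : Fin n) (h : P d = true) :
    Function.update P c true d = true := by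
  by_cases hd : d = c
  · rw [hd]; exact upd_self P c true
  · rw [upd_of_ne P c d true hd]; exact h

theorem nw1_le {n : ℕ} (k : ℕ) (P Q : Fin n → Bool) (c : Fin n) (hP : P c = false) :
    nw k P Q (Function.update P c true) Q ≤ #(setO k P Q c) + #(setI1 k P Q c) := by
  unfold nw
  have hsub : ({x : Fin n × Fin n | x.1 < x.2 ∧ see k P Q x.1 x.2 = false ∧
      see k (Function.update P c true) Q x.1 x.2 = true} : Finset (Fin n × Fin n)) ⊆
      (setO k P Q c).image (fun a => (a, c)) ∪ (setI1 k P Q c).image (fun b => (c, b)) := by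
    rintro ⟨a, b⟩ hx
    rw [Finset.mem_filter] at hx
    obtain ⟨-, hab, h0, h1⟩ := hx
    simp only at hab h0 h1
    have h0' := h0
    rw [see_false_iff] at h0
    rw [see_true_iff] at h1
    rw [Finset.mem_union, Finset.mem_image, Finset.mem_image]
    by_cases hbc : b = c
    · left
      subst hbc
      refine ⟨a, ?_, rfl⟩
      have hne : a ≠ b := ne_of_lt hab
      rw [upd_of_ne P b a true hne] at h1
      unfold setO
      rw [Finset.mem_filter]
      obtain ⟨hPa, h2⟩ := h1
      refine ⟨Finset.mem_univ _, hab, hPa, ?_, h0'⟩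
      rcases h2 with ⟨h3, h4⟩ | ⟨h3, h4⟩
      · refine le_trans (Finset.card_le_card ?_) h4
        intro d hd
        simp only [Finset.mem_filter, Finset.mem_univ, true_and] at hd ⊢
        exact ⟨hd.1, hd.2.1, upd_mono P b d hd.2.2⟩
      · exfalso
        apply h0
        refine ⟨hPa, Or.inr ⟨h3, ?_⟩⟩
        refine le_trans (Finset.card_le_card ?_) h4
        intro d hd
        simp only [Finset.mem_filter, Finset.mem_univ, true_and] at hd ⊢
        refine ⟨hd.1, hd.2.1, ?_⟩
        rcases hd.2.2 with h | h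
        · exact Or.inl ⟨h.1, upd_mono P b d h.2⟩
        · exact Or.inr h
    · right
      by_cases hac : a = c
      · subst hac
        refine ⟨b, ?_, rfl⟩
        unfold setI1
        rw [Finset.mem_filter]
        refine ⟨Finset.mem_univ _, hab, ?_⟩
        rcases h1.2 with ⟨h3, h4⟩ | ⟨h3, h4⟩
        · left
          rw [upd_of_ne P a b true hbc] at h3
          refine ⟨h3, le_trans (Finset.card_le_card ?_) h4⟩
          intro d hd
          simp only [Finset.mem_filter, Finset.mem_univ, true_and] at hd ⊢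
          exact ⟨hd.1, hd.2.1, upd_mono P a d hd.2.2⟩
        · right
          refine ⟨h3, le_trans (Finset.card_le_card ?_) h4⟩
          intro d hd
          simp only [Finset.mem_filter, Finset.mem_univ, true_and] at hd ⊢
          refine ⟨hd.1, hd.2.1, ?_⟩
          rcases hd.2.2 with h | h
          · exact Or.inl ⟨h.1, upd_mono P a d h.2⟩
          · exact Or.inr h
      · exfalso
        apply h0
        rw [upd_of_ne P c a true hac, upd_of_ne P c b true hbc] at h1
        refine ⟨h1.1, ?_⟩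
        rcases h1.2 with ⟨h3, h4⟩ | ⟨h3, h4⟩
        · left
          refine ⟨h3, le_trans (Finset.card_le_card ?_) h4⟩
          intro d hd
          simp only [Finset.mem_filter, Finset.mem_univ, true_and] at hd ⊢
          exact ⟨hd.1, hd.2.1, upd_mono P c d hd.2.2⟩
        · right
          refine ⟨h3, le_trans (Finset.card_le_card ?_) h4⟩
          intro d hd
          simp only [Finset.mem_filter, Finset.mem_univ, true_and] at hd ⊢
          refine ⟨hd.1, hd.2.1, ?_⟩
          rcases hd.2.2 with h | h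
          · exact Or.inl ⟨h.1, upd_mono P c d h.2⟩
          · exact Or.inr h
  refine le_trans (Finset.card_le_card hsub) (le_trans (Finset.card_union_le _ _) ?_)
  exact Nat.add_le_add Finset.card_image_le Finset.card_image_le

theorem nw2_le {n : ℕ} (k : ℕ) (P Q : Fin n → Bool) (c : Fin n) (hP : P c = false) :
    nw k Q P Q (Function.update P c true) ≤ #(setI2 k P Q c) := by
  unfold nw
  have hsub : ({x : Fin n × Fin n | x.1 < x.2 ∧ see k Q P x.1 x.2 = false ∧
      see k Q (Function.update P c true) x.1 x.2 = true} : Finset (Fin n × Fin n)) ⊆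
      (setI2 k P Q c).image (fun a => (a, c)) := by
    rintro ⟨a, b⟩ hx
    rw [Finset.mem_filter] at hx
    obtain ⟨-, hab, h0, h1⟩ := hx
    simp only at hab h0 h1
    rw [see_false_iff] at h0
    rw [see_true_iff] at h1
    rw [Finset.mem_image]
    obtain ⟨hQa, h2⟩ := h1
    rcases h2 with h3 | ⟨h3, h4⟩
    · exfalso
      exact h0 ⟨hQa, Or.inl h3⟩
    · by_cases hbc : b = c
      · subst hbc
        refine ⟨a, ?_, rfl⟩
        unfold setI2
        rw [Finset.mem_filter]
        refine ⟨Finset.mem_univ _, hab, hQa, ?_, ?_⟩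
        · intro hQb
          apply h0
          refine ⟨hQa, Or.inl ⟨hQb, le_trans (Finset.card_le_card ?_) h4⟩⟩
          intro d hd
          simp only [Finset.mem_filter, Finset.mem_univ, true_and] at hd ⊢
          exact ⟨ne_of_gt hd.1, ne_of_lt hd.2.1, Or.inl ⟨hd.1, hd.2.2⟩⟩
        · refine le_trans (Finset.card_le_card ?_) h4
          intro d hd
          simp only [Finset.mem_filter, Finset.mem_univ, true_and] at hd ⊢
          refine ⟨hd.1, hd.2.1, ?_⟩
          rcases hd.2.2 with h | h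
          · exact Or.inl h
          · exact Or.inr ⟨h.1, upd_mono P b d h.2⟩
      · exfalso
        apply h0
        rw [upd_of_ne P c b true hbc] at h3
        refine ⟨hQa, Or.inr ⟨h3, le_trans (Finset.card_le_card ?_) h4⟩⟩
        intro d hd
        simp only [Finset.mem_filter, Finset.mem_univ, true_and] at hd ⊢
        refine ⟨hd.1, hd.2.1, ?_⟩
        rcases hd.2.2 with h | h
        · exact Or.inl h
        · exact Or.inr ⟨h.1, upd_mono P c d h.2⟩
  exact le_trans (Finset.card_le_card hsub) Finset.card_image_le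

theorem O_seen_le {n : ℕ} (k : ℕ) (P Q : Fin n → Bool) (c : Fin n) (hP : P c = false) :
    #(setO k P Q c) + seen k P Q c ≤
      #{a : Fin n | a < c ∧ P a ∧ #{d : Fin n | a < d ∧ d < c ∧ P d} ≤ k} := by
  unfold seen
  have hd : Disjoint (setO k P Q c)
      ({s : Fin n | s < c ∧ s.val ≤ k ∧ P s ∧ see k P Q s c} : Finset (Fin n)) := by
    rw [Finset.disjoint_left]
    intro a ha hb
    unfold setO at ha
    rw [Finset.mem_filter] at ha hb
    have h1 := ha.2.2.2.2
    have h2 := hb.2.2.2.2
    rw [h1] at h2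
    exact absurd h2 (by simp)
  rw [← Finset.card_union_of_disjoint hd]
  apply Finset.card_le_card
  intro a ha
  rw [Finset.mem_union] at ha
  rw [Finset.mem_filter]
  rcases ha with ha | ha
  · unfold setO at ha
    rw [Finset.mem_filter] at ha
    exact ⟨ha.1, ha.2.1, ha.2.2.1, ha.2.2.2.1⟩
  · rw [Finset.mem_filter] at ha
    obtain ⟨-, h1, h2, h3, h4⟩ := ha
    refine ⟨Finset.mem_univ _, h1, h3, ?_⟩
    rw [see_true_iff] at h4
    rcases h4.2 with h | ⟨h5, h6⟩
    · exact h.2
    · refine le_trans (Finset.card_le_card ?_) h6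
      intro d hd
      simp only [Finset.mem_filter, Finset.mem_univ, true_and] at hd ⊢
      exact ⟨ne_of_gt hd.1, ne_of_lt hd.2.1, Or.inl ⟨hd.1, hd.2.2⟩⟩

theorem I1_pred {n : ℕ} (k : ℕ) (P Q : Fin n → Bool) (c b : Fin n) (hP : P c = false)
    (hb : b ∈ setI1 k P Q c) (L : Finset (Fin n))
    (hL : ∀ d ∈ L, (c < d ∧ (P d ∨ Q d)) ∨ (d < c ∧ Q d)) :
    #{y ∈ L | key P c y < key P c b} ≤ k := by
  unfold setI1 at hb
  rw [Finset.mem_filter] at hb
  obtain ⟨-, hcb, hb⟩ := hb
  by_cases hPb : P b = true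
  · have hkb : key P c b = b.val := by unfold key; rw [if_pos ⟨hPb, hcb⟩]
    have hsub : ({y ∈ L | key P c y < key P c b} : Finset (Fin n)) ⊆
        ({d : Fin n | c < d ∧ d < b ∧ P d} : Finset (Fin n)) := by
      intro y hy
      rw [Finset.mem_filter] at hy
      obtain ⟨h1, h2⟩ := hy
      rw [hkb] at h2
      have h3 := y.isLt
      have h4 := b.isLt
      unfold key at h2
      rw [Finset.mem_filter]
      split_ifs at h2 with h5
      · exact ⟨Finset.mem_univ _, h5.2, h2, h5.1⟩
      · omega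
    refine le_trans (Finset.card_le_card hsub) ?_
    rcases hb with ⟨-, h1⟩ | ⟨-, h1⟩
    · exact h1
    · refine le_trans (Finset.card_le_card ?_) h1
      intro d hd
      simp only [Finset.mem_filter, Finset.mem_univ, true_and] at hd ⊢
      exact ⟨ne_of_gt hd.1, ne_of_lt hd.2.1, Or.inl ⟨hd.1, hd.2.2⟩⟩
  · have hkb : key P c b = 2 * n - b.val := by
      unfold key; rw [if_neg (fun h => hPb h.1)]
    rcases hb with ⟨h0, -⟩ | ⟨-, h1⟩
    · exact absurd h0 hPb
    · refine le_trans (Finset.card_le_card ?_) h1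
      intro y hy
      rw [Finset.mem_filter] at hy
      obtain ⟨hyL, h2⟩ := hy
      have hyb : y ≠ b := by rintro rfl; exact lt_irrefl _ h2
      rw [hkb] at h2
      have h3 := y.isLt
      have h4 := b.isLt
      unfold key at h2
      rw [Finset.mem_filter]
      rcases hL y hyL with ⟨h5, h6⟩ | ⟨h5, h6⟩
      · refine ⟨Finset.mem_univ _, ne_of_gt h5, hyb, ?_⟩
        by_cases hPy : P y = true
        · exact Or.inl ⟨h5, hPy⟩
        · right
          rw [if_neg (fun h => hPy h.1)] at h2
          refine ⟨?_, by tauto⟩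
          rw [Fin.lt_def]
          omega
      · exfalso
        rw [if_neg (fun h => lt_asymm h5 h.2)] at h2
        rw [Fin.lt_def] at h5 hcb
        omega

theorem I2_pred {n : ℕ} (k : ℕ) (P Q : Fin n → Bool) (c a : Fin n)
    (ha : a ∈ setI2 k P Q c) (L : Finset (Fin n))
    (hL : ∀ d ∈ L, (c < d ∧ (P d ∨ Q d)) ∨ (d < c ∧ Q d)) :
    #{y ∈ L | key P c y < key P c a} ≤ k := by
  unfold setI2 at ha
  rw [Finset.mem_filter] at ha
  obtain ⟨-, hac, hQa, hQc, h1⟩ := ha
  have hka : key P c a = 2 * n - a.val := by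
    unfold key; rw [if_neg (fun h => lt_asymm hac h.2)]
  refine le_trans (Finset.card_le_card ?_) h1
  intro y hy
  rw [Finset.mem_filter] at hy
  obtain ⟨hyL, h2⟩ := hy
  have hya : y ≠ a := by rintro rfl; exact lt_irrefl _ h2
  rw [hka] at h2
  have h3 := y.isLt
  have h4 := a.isLt
  unfold key at h2
  rw [Finset.mem_filter]
  rcases hL y hyL with ⟨h5, h6⟩ | ⟨h5, h6⟩
  · refine ⟨Finset.mem_univ _, hya, ne_of_gt h5, ?_⟩
    by_cases hPy : P y = true
    · exact Or.inr ⟨h5, hPy⟩
    · left
      exact ⟨lt_trans hac h5, by tauto⟩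
  · refine ⟨Finset.mem_univ _, hya, ne_of_lt h5, Or.inl ⟨?_, h6⟩⟩
    rw [if_neg (fun h => lt_asymm h5 h.2)] at h2
    rw [Fin.lt_def]
    omega

theorem inward {n : ℕ} (k : ℕ) (P Q : Fin n → Bool) (c : Fin n) (hP : P c = false) :
    #(setI1 k P Q c) + #(setI2 k P Q c) + inA k P Q c + lng k P Q c ≤ k + 1 := by
  by_cases hQ : Q c = true
  · have hI2 : setI2 k P Q c = ∅ := by
      unfold setI2
      rw [Finset.filter_eq_empty_iff]
      intro a _ h
      exact h.2.2.1 hQ
    have hinA : inA k P Q c = 0 := by unfold inA; rw [if_pos hQ]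
    have hlng : lng k P Q c = k + 1 - #{d : Fin n | c < d ∧ (P d ∨ Q d)} := by
      unfold lng; rw [if_pos hQ]
    have hsub : setI1 k P Q c ⊆ ({d : Fin n | c < d ∧ (P d ∨ Q d)} : Finset (Fin n)) := by
      intro b hb
      unfold setI1 at hb
      rw [Finset.mem_filter] at hb ⊢
      refine ⟨hb.1, hb.2.1, ?_⟩
      rcases hb.2.2 with h | h
      · exact Or.inl h.1
      · exact Or.inr h.1
    have h1 : #(setI1 k P Q c) ≤ k + 1 := by
      apply rank_le _ _ (key P c) k hsub
      · intro a _ b _ e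
        exact key_inj P c e
      · intro b hb
        apply I1_pred k P Q c b hP hb
        intro d hd
        rw [Finset.mem_filter] at hd
        exact Or.inl hd.2
    have h2 := Finset.card_le_card hsub
    rw [hI2, hinA, hlng, Finset.card_empty]
    omega
  · have hQ' : Q c = false := by simpa using hQ
    have hlng : lng k P Q c = 0 := by unfold lng; rw [if_neg hQ]
    have hinA := inA_le k P Q c hQ'
    have hdisj : Disjoint (setI1 k P Q c) (setI2 k P Q c) := by
      rw [Finset.disjoint_left]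
      intro a ha hb
      unfold setI1 at ha
      unfold setI2 at hb
      rw [Finset.mem_filter] at ha hb
      exact lt_asymm ha.2.1 hb.2.1
    rw [← Finset.card_union_of_disjoint hdisj]
    have hsub : setI1 k P Q c ∪ setI2 k P Q c ⊆
        ({d : Fin n | c < d ∧ (P d ∨ Q d)} : Finset (Fin n)) ∪
        ({d : Fin n | d < c ∧ Q d} : Finset (Fin n)) := by
      intro b hb
      rw [Finset.mem_union] at hb ⊢
      rcases hb with hb | hb
      · left
        unfold setI1 at hb
        rw [Finset.mem_filter] at hb ⊢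
        refine ⟨hb.1, hb.2.1, ?_⟩
        rcases hb.2.2 with h | h
        · exact Or.inl h.1
        · exact Or.inr h.1
      · right
        unfold setI2 at hb
        rw [Finset.mem_filter] at hb ⊢
        exact ⟨hb.1, hb.2.1, hb.2.2.1⟩
    have hL : ∀ d ∈ ({d : Fin n | c < d ∧ (P d ∨ Q d)} : Finset (Fin n)) ∪
        ({d : Fin n | d < c ∧ Q d} : Finset (Fin n)),
        (c < d ∧ (P d ∨ Q d)) ∨ (d < c ∧ Q d) := by
      intro d hd
      rw [Finset.mem_union, Finset.mem_filter, Finset.mem_filter] at hd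
      rcases hd with h | h
      · exact Or.inl h.2
      · exact Or.inr h.2
    have h1 : #(setI1 k P Q c ∪ setI2 k P Q c) ≤ k + 1 := by
      apply rank_le _ _ (key P c) k hsub
      · intro a _ b _ e
        exact key_inj P c e
      · intro b hb
        rw [Finset.mem_union] at hb
        rcases hb with hb | hb
        · exact I1_pred k P Q c b hP hb _ hL
        · exact I2_pred k P Q c b hb _ hL
    have h2 := Finset.card_le_card hsub
    have h3 := Finset.card_union_le
      ({d : Fin n | c < d ∧ (P d ∨ Q d)} : Finset (Fin n))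
      ({d : Fin n | d < c ∧ Q d} : Finset (Fin n))
    omega

/-- **START**. -/
theorem t_START : S_START := by
  intro n k P Q c hP
  have h1 := nw1_le k P Q c hP
  have h2 := nw2_le k P Q c hP
  have h3 := O_seen_le k P Q c hP
  have h4 := T_le k P c
  have h5 := outA_le k P c
  have h6 := inward k P Q c hP
  have h7 := min_le_left (k + 1) (#{d : Fin n | d < c ∧ P d})
  have h8 := min_le_right (k + 1) (#{d : Fin n | d < c ∧ P d})
  omega

end Pool.Agent.E8helper89.AV
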